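import Pool.Agent.Lib.MP_1a91b9_nuT.PT.Tow

/-!
# The homomorphisms of `K` to a field which contains a root of the polynomial of `om`
-/

set_option autoImplicit false

namespace Pool.Agent.Lib.MP_1a91b9_nuT.PT

variable [CD]

open NumberField Module Polynomial IntermediateField

/-- the polynomial of `om` -/
noncomputable def pol : ℚ[X] := X ^ 2 - C (CD.tr : ℚ) * X + C (CD.nm : ℚ)

theorem pol_monic : pol.Monic := by
  rw [pol]
  monicity!

theorem pol_natDegree : pol.natDegree = 2 := by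
  rw [pol]
  compute_degree!

theorem aeval_pol {F : Type*} [Field F] [Algebra ℚ F] {w : F}
    (hw : w ^ 2 = (CD.tr : F) * w - (CD.nm : F)) : aeval w pol = 0 := by
  rw [pol, map_add, map_sub, map_mul, map_pow, aeval_X, aeval_C, aeval_C, map_intCast, map_intCast]
  linear_combination hw

theorem adjoin_om : ℚ⟮(om : K)⟯ = ⊤ := by
  rw [eq_top_iff]
  intro x _
  obtain ⟨a, b, rfl⟩ := exists_rat_coords x
  have h1 : (om : K) ∈ ℚ⟮(om : K)⟯ := mem_adjoin_simple_self ℚ om
  have h2 : ∀ q : ℚ, (q : K) ∈ ℚ⟮(om : K)⟯ := fun q => by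
    have h3 := ℚ⟮(om : K)⟯.algebraMap_mem q
    rwa [eq_ratCast (algebraMap ℚ K) q] at h3
  exact add_mem (h2 a) (mul_mem (h2 b) h1)

theorem isIntegral_om : IsIntegral ℚ (om : K) := Algebra.IsIntegral.isIntegral _

theorem minpoly_om : minpoly ℚ (om : K) = pol := by
  have h1 : (minpoly ℚ (om : K)).natDegree = 2 := by
    rw [← adjoin.finrank isIntegral_om, adjoin_om, finrank_top', finrank_K]
  have h2 : minpoly ℚ (om : K) ∣ pol := minpoly.dvd ℚ _ (aeval_pol om_quad)
  exact (eq_of_monic_of_dvd_of_natDegree_le (minpoly.monic isIntegral_om) pol_monic h2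
    (by rw [h1, pol_natDegree])).symm

theorem exists_hom {F : Type*} [Field F] [CharZero F] {w : F}
    (hw : w ^ 2 = (CD.tr : F) * w - (CD.nm : F)) : ∃ f : K →+* F, f om = w := by
  have h0 : aeval w (minpoly ℚ (adjoin.powerBasis isIntegral_om).gen) = 0 := by
    have h1 : minpoly ℚ (AdjoinSimple.gen ℚ (om : K)) = minpoly ℚ (om : K) :=
      minpoly_gen ℚ (om : K)
    rw [adjoin.powerBasis_gen, h1, minpoly_om]
    exact aeval_pol hw
  let g : ℚ⟮(om : K)⟯ →ₐ[ℚ] F := (adjoin.powerBasis isIntegral_om).lift w h0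
  have hg : g (AdjoinSimple.gen ℚ (om : K)) = w := by
    have h1 := (adjoin.powerBasis isIntegral_om).lift_gen w h0
    rwa [adjoin.powerBasis_gen] at h1
  let e : K →ₐ[ℚ] ℚ⟮(om : K)⟯ :=
    ((IntermediateField.equivOfEq adjoin_om.symm).toAlgHom).comp
      (IntermediateField.topEquiv (F := ℚ) (E := K)).symm.toAlgHom
  refine ⟨(g.comp e).toRingHom, ?_⟩
  have h2 : e om = AdjoinSimple.gen ℚ (om : K) := by
    apply Subtype.ext
    rfl
  change g (e om) = w
  rw [h2, hg]

theorem map_om {F : Type*} [Field F] [Algebra K F] :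
    (algebraMap K F om) ^ 2 = (CD.tr : F) * algebraMap K F om - (CD.nm : F) := by
  have h2 := congrArg (algebraMap K F) om_quad
  rwa [map_pow, map_sub, map_mul, map_intCast, map_intCast] at h2

end Pool.Agent.Lib.MP_1a91b9_nuT.PT
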