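import Pool.Agent.Lib.MP_1a91b9_nuT.BaseK

/-!
# Powers of elements congruent to one up to a prime to `ℓ`
-/

set_option autoImplicit false

namespace Pool.Agent.Lib.MP_1a91b9_nuT.PT

variable [CD]

open NumberField

theorem cop_pow {ℓ : ℕ} (hℓ : ℓ.Prime) {a : 𝓞 K} (h : IsCoprime (a - 1) (ℓ : 𝓞 K)) {f : ℕ}
    (hf : f ∣ ℓ) : IsCoprime (a ^ f - 1) (ℓ : 𝓞 K) := by
  rcases (Nat.dvd_prime hℓ).1 hf with rfl | rfl
  · rwa [pow_one]
  · obtain ⟨c, hc⟩ : (f : 𝓞 K) ∣ (a ^ f - 1) - (a - 1) ^ f := by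
      have h1 := exists_add_pow_prime_eq hℓ (a - 1) 1
      obtain ⟨r, hr⟩ := h1
      rw [sub_add_cancel] at hr
      exact ⟨(a - 1) * 1 * r, by rw [hr]; ring⟩
    have h2 : IsCoprime ((a - 1) ^ f) (f : 𝓞 K) := h.pow_left
    have h3 : a ^ f - 1 = (a - 1) ^ f + (f : 𝓞 K) * c := by rw [← hc]; ring
    rw [h3]
    exact h2.add_mul_left_left c


end Pool.Agent.Lib.MP_1a91b9_nuT.PT
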